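import Pool.Agent.H886R2.Mono.Core

/-!
`log₂ g(p) ≤ 6 p² log₂ p`, where `g(p)` is the least `n` such that every two-colouring of the pairs
of every `n` points in general position in the plane has `p` points in convex position all of whose
pairs have the same colour.
-/

set_option autoImplicit false

namespace Pool.Agent.Results.MP_6c3374_co.QuadLog

open Finset

/-- the Euclidean plane -/
abbrev Pl := EuclideanSpace ℝ (Fin 2)

/-- no three points of `P` lie on a line -/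
def GenPos (P : Finset Pl) : Prop :=
  ∀ a ∈ P, ∀ b ∈ P, ∀ c ∈ P, a ≠ b → a ≠ c → b ≠ c → ¬ Collinear ℝ ({a, b, c} : Set Pl)

/-- each point of `Q` is a vertex of the convex hull of `Q` -/
def ConvexPosition (Q : Finset Pl) : Prop := ∀ q ∈ Q, q ∉ convexHull ℝ ((Q : Set Pl) \ {q})

/-- for every set of `n` points in general position and every two-colouring of its pairs, some `p`
points of the set are in convex position and all pairs among them have the same colour -/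
def Forces (p n : ℕ) : Prop :=
  ∀ P : Finset Pl, P.card = n → GenPos P → ∀ c : Sym2 Pl → Bool,
    ∃ Q : Finset Pl, Q ⊆ P ∧ Q.card = p ∧ ConvexPosition Q ∧
      ∃ k : Bool, ∀ a ∈ Q, ∀ b ∈ Q, a ≠ b → c s(a, b) = k

/-- the least `n` with `Forces p n` -/
noncomputable def g (p : ℕ) : ℕ := sInf {n : ℕ | Forces p n}

lemma forces_mono {p n m : ℕ} (h : Forces p n) (hnm : n ≤ m) : Forces p m := by
  intro P hP hG c
  obtain ⟨P', hP', hc⟩ := Finset.exists_subset_card_eq (hP ▸ hnm : n ≤ P.card)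
  obtain ⟨Q, h1, h2⟩ := h P' hc (fun a ha b hb d hd => hG a (hP' ha) b (hP' hb) d (hP' hd)) c
  exact ⟨Q, h1.trans hP', h2⟩

lemma forces_bound {p : ℕ} (hp : 3 ≤ p) :
    Forces p ((2 * (p - 2) ^ 2 + 1) ^ (2 * (p - 2) ^ 2 + 1)) := by
  intro P hP hG c
  have hGP : Pool.Agent.Helper456.ES.GP P := by
    intro a ha b hb d hd h1 h2 h3 h4
    exact hG a ha b hb d hd h1 h2 h3 (Pool.Agent.Helper456.ES.collinear_of_det h1 h4)
  obtain ⟨Q, hQ, hc, hv, k, hk⟩ := Pool.Agent.H886R2.Mono.main hGP (l := p - 2) (by omega)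
    hP.ge c
  refine ⟨Q, hQ, by omega, ?_, k, hk⟩
  intro q hq
  rw [← hv] at hq
  exact (Pool.Agent.Helper456.ES.mem_HV.mp hq).2

lemma log_bound {p : ℕ} (hp : 3 ≤ p) :
    Real.logb 2 (((2 * (p - 2) ^ 2 + 1) ^ (2 * (p - 2) ^ 2 + 1) : ℕ) : ℝ)
      ≤ 6 * (p : ℝ) ^ 2 * Real.logb 2 p := by
  obtain ⟨q, rfl⟩ : ∃ q, p = q + 2 := ⟨p - 2, by omega⟩
  have hq : 1 ≤ q := by omega
  rw [Nat.add_sub_cancel]
  have hqR : (1:ℝ) ≤ q := by exact_mod_cast hq
  have h1 : ((2 * q ^ 2 + 1 : ℕ) : ℝ) ≤ 2 * ((q + 2 : ℕ) : ℝ) ^ 2 := by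
    push_cast
    nlinarith
  have h2 : ((2 * q ^ 2 + 1 : ℕ) : ℝ) ≤ ((q + 2 : ℕ) : ℝ) ^ 3 := by
    push_cast
    nlinarith [pow_pos (lt_of_lt_of_le one_pos hqR) 3]
  have hpos : (0:ℝ) < ((2 * q ^ 2 + 1 : ℕ) : ℝ) := by positivity
  have h3 : Real.logb 2 ((2 * q ^ 2 + 1 : ℕ) : ℝ) ≤ 3 * Real.logb 2 ((q + 2 : ℕ) : ℝ) := by
    calc Real.logb 2 ((2 * q ^ 2 + 1 : ℕ) : ℝ) ≤ Real.logb 2 (((q + 2 : ℕ) : ℝ) ^ 3) :=
          Real.logb_le_logb_of_le (by norm_num) hpos h2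
      _ = 3 * Real.logb 2 ((q + 2 : ℕ) : ℝ) := by
          rw [Real.logb_pow]; norm_num
  have h4 : 0 ≤ Real.logb 2 ((q + 2 : ℕ) : ℝ) := by
    apply Real.logb_nonneg (by norm_num)
    push_cast; linarith
  have h5 : 0 ≤ Real.logb 2 ((2 * q ^ 2 + 1 : ℕ) : ℝ) := by
    apply Real.logb_nonneg (by norm_num)
    push_cast; nlinarith
  rw [Nat.cast_pow, Real.logb_pow]
  calc ((2 * q ^ 2 + 1 : ℕ) : ℝ) * Real.logb 2 ((2 * q ^ 2 + 1 : ℕ) : ℝ)
      ≤ (2 * ((q + 2 : ℕ) : ℝ) ^ 2) * (3 * Real.logb 2 ((q + 2 : ℕ) : ℝ)) :=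
        mul_le_mul h1 h3 h5 (by positivity)
    _ = 6 * ((q + 2 : ℕ) : ℝ) ^ 2 * Real.logb 2 ((q + 2 : ℕ) : ℝ) := by ring

/-- For every `p ≥ 3` the number `g(p)` exists (it is the least `n` with the property, and all larger
`n` have the property too), `g(p) ≤ (2 (p-2)² + 1) ^ (2 (p-2)² + 1)` and
`log₂ g(p) ≤ 6 p² log₂ p`. -/
theorem result : ∀ p : ℕ, 3 ≤ p →
    (∀ n, Forces p n ↔ g p ≤ n) ∧
    g p ≤ (2 * (p - 2) ^ 2 + 1) ^ (2 * (p - 2) ^ 2 + 1) ∧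
    Real.logb 2 (g p) ≤ 6 * (p : ℝ) ^ 2 * Real.logb 2 p := by
  intro p hp
  have hb := forces_bound hp
  have hmem : Forces p (g p) := Nat.sInf_mem (s := {n : ℕ | Forces p n}) ⟨_, hb⟩
  have hle : g p ≤ (2 * (p - 2) ^ 2 + 1) ^ (2 * (p - 2) ^ 2 + 1) := Nat.sInf_le hb
  refine ⟨fun n => ⟨fun h => Nat.sInf_le h, fun h => forces_mono hmem h⟩, hle, ?_⟩
  rcases Nat.eq_zero_or_pos (g p) with h0 | h0
  · rw [h0, Nat.cast_zero, Real.logb_zero]
    have : 0 ≤ Real.logb 2 (p : ℝ) := by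
      apply Real.logb_nonneg (by norm_num)
      exact_mod_cast (by omega : 1 ≤ p)
    positivity
  · exact (Real.logb_le_logb_of_le (by norm_num) (by exact_mod_cast h0)
      (by exact_mod_cast hle)).trans (log_bound hp)

end Pool.Agent.Results.MP_6c3374_co.QuadLog
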